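import Pool.Agent.MP_179466_co.Basic

/-!
Lines meeting a positive fraction of a family of pairwise intersecting convex sets in three-space:
an approximate form for all convex sets, and the exact statement for sets of bounded complexity.
-/

open Pool.Agent.MP_179466_co
open scoped Pointwise RealInnerProductSpace

namespace Pool.Agent.Results.MP_179466_co.ApproximateLines

/-- The number of ordered pairs `(i, j)`, `i = j` allowed, with `C i ∩ C j` nonempty. It is `n ^ 2`
if the family is pairwise intersecting. -/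
noncomputable def numPairs {n : ℕ} (C : Fin n → Set (EuclideanSpace ℝ (Fin 3))) : ℕ :=
  Nat.card {p : Fin n × Fin n // (C p.1 ∩ C p.2).Nonempty}

/-- The number of members of the family met by the line `{x + s • d : s real}`. -/
noncomputable def numMet {n : ℕ} (C : Fin n → Set (EuclideanSpace ℝ (Fin 3)))
    (x d : EuclideanSpace ℝ (Fin 3)) : ℕ :=
  Nat.card {i : Fin n // ∃ s : ℝ, x + s • d ∈ C i}

open Classical in
lemma numPairs_eq {n : ℕ} (C : Fin n → Set (EuclideanSpace ℝ (Fin 3))) :
    numPairs C = (Finset.univ.filter fun p : Fin n × Fin n => (C p.1 ∩ C p.2).Nonempty).card := by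
  unfold numPairs
  rw [Nat.card_eq_fintype_card, Fintype.card_subtype]

open Classical in
lemma numMet_eq {n : ℕ} (C : Fin n → Set (EuclideanSpace ℝ (Fin 3)))
    (x d : EuclideanSpace ℝ (Fin 3)) :
    numMet C x d = (Finset.univ.filter fun i => ∃ s : ℝ, x + s • d ∈ C i).card := by
  unfold numMet
  rw [Nat.card_eq_fintype_card, Fintype.card_subtype]

/-- Let `C 0, …, C (n - 1)` be sets in three-space and `E` the number of ordered pairs `(i, j)` with
`C i ∩ C j` nonempty, so that `E = n ^ 2` for a pairwise intersecting family.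
(1) If all `C i` are convex and `0 < ε ≤ 1`, some line meets at least `(ε / 100) ^ 6 * E / n` of the
sets `C i + ε • (C i - C i)`.
(2) If each `C i` is the convex hull of at most `m ≥ 2` points, some line meets at least
`E / (m * (m - 1) * n)` of the sets `C i`.
(3) If each `C i` is the solution set of `m` linear inequalities, some line meets at least
`E / ((m + 4) * (m + 3) * n)` of the sets `C i`. -/
theorem result :
    (∀ ε : ℝ, 0 < ε → ε ≤ 1 → ∀ (n : ℕ) (C : Fin n → Set (EuclideanSpace ℝ (Fin 3))),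
      (∀ i, Convex ℝ (C i)) →
      ∃ x d : EuclideanSpace ℝ (Fin 3), d ≠ 0 ∧
        (ε / 100) ^ 6 * numPairs C ≤ n * numMet (fun i => C i + ε • (C i - C i)) x d) ∧
    (∀ m : ℕ, 2 ≤ m → ∀ (n : ℕ) (C : Fin n → Set (EuclideanSpace ℝ (Fin 3))),
      (∀ i, ∃ A : Finset (EuclideanSpace ℝ (Fin 3)), A.card ≤ m ∧
        C i = convexHull ℝ (A : Set (EuclideanSpace ℝ (Fin 3)))) →
      ∃ x d : EuclideanSpace ℝ (Fin 3), d ≠ 0 ∧
        numPairs C ≤ m * (m - 1) * n * numMet C x d) ∧
    (∀ (m n : ℕ) (C : Fin n → Set (EuclideanSpace ℝ (Fin 3))),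
      (∀ i, ∃ (a : Fin m → EuclideanSpace ℝ (Fin 3)) (b : Fin m → ℝ),
        C i = {x | ∀ s, ⟪a s, x⟫ ≤ b s}) →
      ∃ x d : EuclideanSpace ℝ (Fin 3), d ≠ 0 ∧
        numPairs C ≤ (m + 4) * (m + 3) * n * numMet C x d) := by
  refine ⟨fun ε hε hε1 n C hC => ?_, fun m hm n C hC => ?_, fun m n C hC => ?_⟩
  · obtain ⟨x, d, hd, h⟩ := approx_bound ε hε hε1 n C hC
    refine ⟨x, d, hd, ?_⟩
    rw [numPairs_eq, numMet_eq]
    exact h
  · choose A hA hCA using hC
    obtain ⟨x, d, hd, h⟩ := vertex_bound (V := EuclideanSpace ℝ (Fin 3)) (by simp) m hm n A hA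
    refine ⟨x, d, hd, ?_⟩
    obtain rfl : C = fun i => convexHull ℝ (A i : Set (EuclideanSpace ℝ (Fin 3))) := funext hCA
    rw [numPairs_eq, numMet_eq]
    exact h
  · choose a b hab using hC
    obtain ⟨x, d, hd, h⟩ := facet_bound m n a b
    refine ⟨x, d, hd, ?_⟩
    obtain rfl : C = fun i => {x | ∀ s, ⟪a i s, x⟫ ≤ b i s} := funext hab
    rw [numPairs_eq, numMet_eq]
    exact h

end Pool.Agent.Results.MP_179466_co.ApproximateLines
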