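import Pool.Agent.HPL99.Main

/-! Two families of convex sets in `ℝ³`, every member of one meeting every member of the other, the
second one in parallel planes: one line meets all the sets in the planes, or three lines meet all
the other sets. -/

namespace Pool.Agent.Results.MP_179466_co.HalfParallel

/-- Let `A i` (`i < m`) and `B j` (`j < n`) be convex sets in `ℝ³` and `Π j = {x | ⟨a, x⟩ = s j}`
parallel planes (`a ≠ 0`, equal planes allowed) such that every `A i ∩ B j` has a point in `Π j`
(for `B j ⊆ Π j` this says that `A i` and `B j` intersect). Then some line meets every `B j`, or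
there are three lines, each inside one of the planes `Π j`, such that every `A i` meets at least one
of them; in particular one of the three meets at least `m / 3` of the sets `A i`. -/
theorem result {m n : ℕ} (A : Fin m → Set (EuclideanSpace ℝ (Fin 3)))
    (B : Fin n → Set (EuclideanSpace ℝ (Fin 3)))
    (hA : ∀ i, Convex ℝ (A i)) (hB : ∀ j, Convex ℝ (B j))
    (a : EuclideanSpace ℝ (Fin 3)) (ha : a ≠ 0) (s : Fin n → ℝ)
    (hAB : ∀ i j, ∃ x ∈ A i ∩ B j, inner ℝ a x = s j) :
    (∃ x d : EuclideanSpace ℝ (Fin 3), d ≠ 0 ∧ ∀ j, ∃ t : ℝ, x + t • d ∈ B j) ∨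
      (∃ (e : Fin 3 → Fin n) (x d : Fin 3 → EuclideanSpace ℝ (Fin 3)),
        (∀ k, d k ≠ 0 ∧ inner ℝ a (x k) = s (e k) ∧ inner ℝ a (d k) = (0 : ℝ)) ∧
          (∀ i, ∃ k, ∃ t : ℝ, x k + t • d k ∈ A i) ∧
            ∃ k, m ≤ 3 * Nat.card {i : Fin m // ∃ t : ℝ, x k + t • d k ∈ A i}) :=
  Pool.Agent.HPL99.half_parallel' A B hA hB a ha s hAB

end Pool.Agent.Results.MP_179466_co.HalfParallel
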