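import Pool.Agent.BIP.Main2

/-!
Finite families of unions of `k` convex sets in three-space, among any `p` members of which some
two intersect: finitely many lines such that every member meets a positive fraction of them.
-/

namespace Pool.Agent.Results.MP_179466_co.LineSystems

/-- There are absolute constants `c > 0` and `K` such that: if `F 1, ..., F n` are nonempty subsets
of three-space, each a union of `k` convex sets, and among any `p ≥ 2` of the indices there are two
different ones `i, j` with `F i ∩ F j ≠ ∅`, then there are `N ≥ 1` lines `{x r + t • d r : t real}`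
(repetitions allowed) such that every `F i` meets at least `c (k p) ^ (-K) N` of them. -/
theorem result : ∃ (c : ℝ) (K : ℕ), 0 < c ∧ ∀ (p k n : ℕ), 2 ≤ p →
    ∀ F : Fin n → Set (EuclideanSpace ℝ (Fin 3)), (∀ i, (F i).Nonempty) →
    (∀ i, ∃ C : Fin k → Set (EuclideanSpace ℝ (Fin 3)), (∀ s, Convex ℝ (C s)) ∧ F i = ⋃ s, C s) →
    (∀ S : Finset (Fin n), S.card = p → ∃ i ∈ S, ∃ j ∈ S, i ≠ j ∧ (F i ∩ F j).Nonempty) →
    ∃ (N : ℕ) (x d : Fin N → EuclideanSpace ℝ (Fin 3)), 0 < N ∧ (∀ r, d r ≠ 0) ∧
      ∀ i, c / ((k : ℝ) * p) ^ K * (N : ℝ) ≤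
        (Nat.card {r : Fin N // ∃ t : ℝ, x r + t • d r ∈ F i} : ℝ) :=
  Pool.Agent.BIP.main2

end Pool.Agent.Results.MP_179466_co.LineSystems
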