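import Pool.Agent.BIP.Main

/-!
Two families of convex sets in three-space, a positive fraction of the pairs intersecting: a line
meets a positive fraction of one of the families, and this fraction is polynomial in the fraction
of intersecting pairs.
-/

namespace Pool.Agent.Results.MP_179466_co.PositiveDensity

/-- There are absolute constants `c > 0` and `K` such that: if `A : Fin m → _` and `B : Fin n → _`
are finite nonempty families of convex sets in three-space and at least `α m n` of the pairs
`(i, j)` satisfy `A i ∩ B j ≠ ∅` (`α > 0`), then some line `{x + t • d : t real}` meets at least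
`c α ^ K m` of the sets `A i`, or some line meets at least `c α ^ K n` of the sets `B j`. -/
theorem result :
    ∃ (c : ℝ) (K : ℕ), 0 < c ∧ ∀ (α : ℝ), 0 < α → ∀ (m n : ℕ), 1 ≤ m → 1 ≤ n →
      ∀ (A : Fin m → Set (EuclideanSpace ℝ (Fin 3))) (B : Fin n → Set (EuclideanSpace ℝ (Fin 3))),
      (∀ i, Convex ℝ (A i)) → (∀ j, Convex ℝ (B j)) →
      α * (m * n : ℝ) ≤ (Nat.card {q : Fin m × Fin n // (A q.1 ∩ B q.2).Nonempty} : ℝ) →
      (∃ x d : EuclideanSpace ℝ (Fin 3), d ≠ 0 ∧
        c * α ^ K * (m : ℝ) ≤ (Nat.card {i : Fin m // ∃ t : ℝ, x + t • d ∈ A i} : ℝ)) ∨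
      (∃ x d : EuclideanSpace ℝ (Fin 3), d ≠ 0 ∧
        c * α ^ K * (n : ℝ) ≤ (Nat.card {j : Fin n // ∃ t : ℝ, x + t • d ∈ B j} : ℝ)) :=
  Pool.Agent.BIP.main

end Pool.Agent.Results.MP_179466_co.PositiveDensity
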